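import Pool.Agent.W114.PQ.Stm

set_option autoImplicit false

/-!
# Project PQ, task L2: second moment over all integers
-/

namespace Pool.Agent.W215.PQ

open Finset
open Pool.Agent.H951R4.OD (ch PI)
open Pool.Agent.W114.PQ

theorem ch_odd (D : ℤ) (q : ℕ) (hq : q % 2 = 1) : ch D q = ((jacobiSym D q : ℤ) : ℝ) := by
  unfold ch; rw [if_pos hq]

theorem ch_two (D : ℤ) : ch D 2 = 0 := by
  unfold ch; norm_num

theorem ch_abs (D : ℤ) (n : ℕ) : |ch D n| ≤ 1 := by
  unfold ch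
  split_ifs
  · rcases jacobiSym.trichotomy D n with h | h | h <;> rw [h] <;> norm_num
  · norm_num

/-- the product of two quadratic characters has mean zero -/
theorem sum_zero (q q' : ℕ) (hq : q.Prime) (hq' : q'.Prime) (h2 : q ≠ 2) (h2' : q' ≠ 2)
    (hne : q ≠ q') : ∑ n ∈ range (q * q'), ch (n : ℤ) q * ch (n : ℤ) q' = 0 := by
  have := Fact.mk hq
  have := Fact.mk hq'
  have hodd : q % 2 = 1 := by rcases hq.eq_two_or_odd with h | h <;> omega
  have hodd' : q' % 2 = 1 := by rcases hq'.eq_two_or_odd with h | h <;> omega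
  have hcopr : Nat.Coprime q q' := (Nat.coprime_primes hq hq').2 hne
  obtain ⟨a, ha⟩ := quadraticChar_exists_neg_one (F := ZMod q)
    (by rw [ZMod.ringChar_zmod_n]; exact h2)
  obtain ⟨b, hb1, hb2⟩ := Nat.chineseRemainder hcopr a.val 1
  have hba : (b : ZMod q) = a := by
    rw [(ZMod.natCast_eq_natCast_iff _ _ _).2 hb1, ZMod.natCast_zmod_val]
  have hb1' : (b : ZMod q') = 1 := by
    have := (ZMod.natCast_eq_natCast_iff _ _ _).2 hb2
    rw [this]; simp
  have e1 : ch (b : ℤ) q = -1 := by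
    rw [ch_odd _ _ hodd, ← jacobiSym.legendreSym.to_jacobiSym, legendreSym]
    have : ((b : ℤ) : ZMod q) = a := by rw [← hba]; push_cast; rfl
    rw [this, ha]; norm_num
  have e2 : ch (b : ℤ) q' = 1 := by
    rw [ch_odd _ _ hodd', ← jacobiSym.legendreSym.to_jacobiSym, legendreSym]
    have : ((b : ℤ) : ZMod q') = 1 := by rw [← hb1']; push_cast; rfl
    rw [this, map_one]; norm_num
  obtain ⟨T, hT⟩ : ∃ T : ℕ, T = q * q' := ⟨_, rfl⟩
  have hT0 : 0 < T := by rw [hT]; exact Nat.mul_pos hq.pos hq'.pos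
  have hcop : Nat.Coprime T b := by
    rw [hT]
    apply Nat.Coprime.mul_left
    · rw [Nat.coprime_iff_gcd_eq_one, ← Nat.coprime_iff_gcd_eq_one]
      rw [Nat.Prime.coprime_iff_not_dvd hq]
      intro hd
      rw [← ZMod.natCast_eq_zero_iff, hba] at hd
      rw [hd] at ha
      simp at ha
    · rw [Nat.Prime.coprime_iff_not_dvd hq']
      intro hd
      rw [← ZMod.natCast_eq_zero_iff, hb1'] at hd
      exact one_ne_zero hd
  set g : ℕ → ℝ := fun n => ch (n : ℤ) q * ch (n : ℤ) q' with hg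
  have hmul : ∀ m n : ℕ, g (m * n) = g m * g n := by
    intro m n
    simp only [hg]
    rw [ch_odd _ _ hodd, ch_odd _ _ hodd, ch_odd _ _ hodd, ch_odd _ _ hodd', ch_odd _ _ hodd',
      ch_odd _ _ hodd']
    push_cast
    rw [jacobiSym.mul_left, jacobiSym.mul_left]
    push_cast
    ring
  have hmod : ∀ n : ℕ, g (n % T) = g n := by
    intro n
    simp only [hg]
    rw [ch_odd _ _ hodd, ch_odd _ _ hodd, ch_odd _ _ hodd', ch_odd _ _ hodd']
    have h1 : jacobiSym ((n % T : ℕ) : ℤ) q = jacobiSym (n : ℤ) q := by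
      apply jacobiSym.mod_left'
      push_cast
      rw [hT]; push_cast
      exact Int.emod_emod_of_dvd _ (Dvd.intro _ rfl)
    have h2 : jacobiSym ((n % T : ℕ) : ℤ) q' = jacobiSym (n : ℤ) q' := by
      apply jacobiSym.mod_left'
      push_cast
      rw [hT]; push_cast
      exact Int.emod_emod_of_dvd _ (Dvd.intro_left _ rfl)
    rw [h1, h2]
  have hinj : Set.InjOn (fun n => (b * n) % T) (range T : Finset ℕ) := by
    intro n hn m hm hnm
    have h1 : b * n ≡ b * m [MOD T] := hnm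
    have h2 : n ≡ m [MOD T] := Nat.ModEq.cancel_left_of_coprime hcop h1
    rw [Finset.coe_range] at hn hm
    exact Nat.ModEq.eq_of_lt_of_lt h2 hn hm
  have himg : (range T).image (fun n => (b * n) % T) = range T := by
    apply Finset.eq_of_subset_of_card_le
    · intro m hm
      obtain ⟨n, -, rfl⟩ := Finset.mem_image.1 hm
      exact Finset.mem_range.2 (Nat.mod_lt _ hT0)
    · rw [Finset.card_image_of_injOn hinj]
  have h3 : ∑ n ∈ range T, g n = ∑ n ∈ range T, g ((b * n) % T) := by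
    conv_lhs => rw [← himg]
    rw [Finset.sum_image hinj]
  have hgb : g b = -1 := by simp only [hg]; rw [e1, e2]; norm_num
  have h4 : ∑ n ∈ range T, g ((b * n) % T) = -∑ n ∈ range T, g n := by
    rw [← Finset.sum_neg_distrib]
    refine Finset.sum_congr rfl (fun n _ => ?_)
    rw [hmod, hmul, hgb]
    ring
  rw [← hT]
  show ∑ n ∈ range T, g n = 0
  linarith

theorem partial_le (q q' : ℕ) (hq : q.Prime) (hq' : q'.Prime) (h2 : q ≠ 2) (h2' : q' ≠ 2)
    (hne : q ≠ q') (N : ℕ) :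
    |∑ n ∈ range N, ch (n : ℤ) q * ch (n : ℤ) q'| ≤ ((q * q' : ℕ) : ℝ) := by
  have hodd : q % 2 = 1 := by rcases hq.eq_two_or_odd with h | h <;> omega
  have hodd' : q' % 2 = 1 := by rcases hq'.eq_two_or_odd with h | h <;> omega
  have hfull := sum_zero q q' hq hq' h2 h2' hne
  obtain ⟨T, hT⟩ : ∃ T : ℕ, T = q * q' := ⟨_, rfl⟩
  have hT0 : 0 < T := by rw [hT]; exact Nat.mul_pos hq.pos hq'.pos
  rw [← hT] at hfull ⊢
  induction N using Nat.strong_induction_on with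
  | _ N ih =>
    rcases lt_or_ge N T with h | h
    · calc |∑ n ∈ range N, ch (n : ℤ) q * ch (n : ℤ) q'|
          ≤ ∑ n ∈ range N, |ch (n : ℤ) q * ch (n : ℤ) q'| := Finset.abs_sum_le_sum_abs _ _
        _ ≤ ∑ _n ∈ range N, (1 : ℝ) := Finset.sum_le_sum (fun n _ => by
            rw [abs_mul]
            exact mul_le_one₀ (ch_abs _ _) (abs_nonneg _) (ch_abs _ _))
        _ = N := by simp
        _ ≤ T := by exact_mod_cast h.le
    · obtain ⟨m, rfl⟩ := Nat.exists_eq_add_of_le h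
      have h1 : ∑ n ∈ range (T + m), ch (n : ℤ) q * ch (n : ℤ) q' =
          ∑ n ∈ range m, ch (n : ℤ) q * ch (n : ℤ) q' := by
        rw [Finset.sum_range_add, hfull, zero_add]
        refine Finset.sum_congr rfl (fun n _ => ?_)
        rw [ch_odd _ _ hodd, ch_odd _ _ hodd, ch_odd _ _ hodd', ch_odd _ _ hodd']
        have h1 : jacobiSym ((T + n : ℕ) : ℤ) q = jacobiSym (n : ℤ) q := by
          apply jacobiSym.mod_left'
          rw [hT]; push_cast
          rw [mul_comm (q : ℤ), Int.add_comm, Int.add_mul_emod_self_right]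
        have h2 : jacobiSym ((T + n : ℕ) : ℤ) q' = jacobiSym (n : ℤ) q' := by
          apply jacobiSym.mod_left'
          rw [hT]; push_cast
          rw [Int.add_comm, Int.add_mul_emod_self_right]
        rw [h1, h2]
      rw [h1]
      exact ih m (by omega)

theorem interval_le (q q' : ℕ) (hq : q.Prime) (hq' : q'.Prime) (hne : q ≠ q') (R : ℕ) :
    |∑ n ∈ Ioc R (2 * R), ch (n : ℤ) q * ch (n : ℤ) q'| ≤ 2 * ((q : ℝ) * q') := by
  by_cases h2 : q = 2
  · have : ∑ n ∈ Ioc R (2 * R), ch (n : ℤ) q * ch (n : ℤ) q' = 0 := by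
      refine Finset.sum_eq_zero (fun n _ => ?_)
      rw [h2, ch_two, zero_mul]
    rw [this, abs_zero]; positivity
  by_cases h2' : q' = 2
  · have : ∑ n ∈ Ioc R (2 * R), ch (n : ℤ) q * ch (n : ℤ) q' = 0 := by
      refine Finset.sum_eq_zero (fun n _ => ?_)
      rw [h2', ch_two, mul_zero]
    rw [this, abs_zero]; positivity
  have e : ∑ n ∈ Ioc R (2 * R), ch (n : ℤ) q * ch (n : ℤ) q' =
      ∑ n ∈ range (2 * R + 1), ch (n : ℤ) q * ch (n : ℤ) q' -
      ∑ n ∈ range (R + 1), ch (n : ℤ) q * ch (n : ℤ) q' := by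
    rw [← Finset.sum_Ico_eq_sub _ (by omega : R + 1 ≤ 2 * R + 1)]
    congr 1
    ext n
    simp only [mem_Ioc, mem_Ico]
    omega
  have a1 := abs_le.1 (partial_le q q' hq hq' h2 h2' hne (2 * R + 1))
  have a2 := abs_le.1 (partial_le q q' hq hq' h2 h2' hne (R + 1))
  rw [e, abs_le]
  push_cast at a1 a2
  constructor <;> linarith [a1.1, a1.2, a2.1, a2.2]

theorem l2 : S_L2 := by
  classical
  intro κ c hκ hc Y Q R hY hQR
  rcases Nat.lt_or_ge Y Q with hYQ | hYQ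
  swap
  · have hPI : PI Y Q = ∅ := by
      unfold PI
      rw [Finset.Ioc_eq_empty (by omega)]
      rfl
    have : (Ioc R (2 * R)).filter (fun x : ℕ => 1 / 2 < |∑ q ∈ PI Y Q, c q * ch (x : ℤ) q / q|)
        = ∅ := by
      apply Finset.filter_eq_empty_iff.2
      intro x _
      rw [hPI]; simp
    rw [this]
    simp only [card_empty, Nat.cast_zero]
    positivity
  have hκ0 : 0 ≤ κ := by linarith
  have hYr : (0 : ℝ) < Y := by exact_mod_cast hY
  set a : ℕ → ℕ → ℝ := fun x q => c q * ch (x : ℤ) q / q with ha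
  have hpos : ∀ q ∈ PI Y Q, (0 : ℝ) < q ∧ q.Prime := by
    intro q hq
    have := (mem_filter.1 hq).2
    exact ⟨by exact_mod_cast this.pos, this⟩
  -- the pair terms
  have hpair : ∀ q ∈ PI Y Q, ∀ q' ∈ PI Y Q, ∑ x ∈ Ioc R (2 * R), a x q * a x q' ≤
      (if q = q' then κ ^ 2 * R * ((q : ℝ) ^ 2)⁻¹ else 0) + 2 * κ ^ 2 := by
    intro q hq q' hq'
    obtain ⟨hq0, hqp⟩ := hpos q hq
    obtain ⟨hq0', hqp'⟩ := hpos q' hq'
    have e1 : ∑ x ∈ Ioc R (2 * R), a x q * a x q' =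
        (c q * c q' / (q * q')) * ∑ x ∈ Ioc R (2 * R), ch (x : ℤ) q * ch (x : ℤ) q' := by
      rw [Finset.mul_sum]
      refine Finset.sum_congr rfl (fun x _ => ?_)
      simp only [ha]
      field_simp
    have hcc : |c q * c q'| ≤ κ ^ 2 := by
      rw [abs_mul, sq]
      exact mul_le_mul (hc q) (hc q') (abs_nonneg _) hκ0
    rw [e1]
    by_cases hne : q = q'
    · subst hne
      rw [if_pos rfl]
      have h1 : |∑ x ∈ Ioc R (2 * R), ch (x : ℤ) q * ch (x : ℤ) q| ≤ R := by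
        calc |∑ x ∈ Ioc R (2 * R), ch (x : ℤ) q * ch (x : ℤ) q|
            ≤ ∑ x ∈ Ioc R (2 * R), |ch (x : ℤ) q * ch (x : ℤ) q| := Finset.abs_sum_le_sum_abs _ _
          _ ≤ ∑ _x ∈ Ioc R (2 * R), (1 : ℝ) := Finset.sum_le_sum (fun n _ => by
              rw [abs_mul]
              exact mul_le_one₀ (ch_abs _ _) (abs_nonneg _) (ch_abs _ _))
          _ = R := by
            rw [Finset.sum_const, Nat.card_Ioc, nsmul_eq_mul, mul_one]
            congr 1; omega
      have h2 : (c q * c q / (q * q)) * ∑ x ∈ Ioc R (2 * R), ch (x : ℤ) q * ch (x : ℤ) q ≤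
          κ ^ 2 * R * ((q : ℝ) ^ 2)⁻¹ := by
        refine (le_abs_self _).trans ?_
        rw [abs_mul, abs_div, abs_of_pos (mul_pos hq0 hq0)]
        calc |c q * c q| / (q * q) * |∑ x ∈ Ioc R (2 * R), ch (x : ℤ) q * ch (x : ℤ) q|
            ≤ κ ^ 2 / (q * q) * R := by
              apply mul_le_mul _ h1 (abs_nonneg _) (by positivity)
              exact div_le_div_of_nonneg_right hcc (by positivity)
          _ = κ ^ 2 * R * ((q : ℝ) ^ 2)⁻¹ := by field_simp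
      have : 0 ≤ 2 * κ ^ 2 := by positivity
      linarith
    · rw [if_neg hne, zero_add]
      have h1 := interval_le q q' hqp hqp' hne R
      refine (le_abs_self _).trans ?_
      rw [abs_mul, abs_div, abs_of_pos (mul_pos hq0 hq0')]
      calc |c q * c q'| / (q * q') * |∑ x ∈ Ioc R (2 * R), ch (x : ℤ) q * ch (x : ℤ) q'|
          ≤ κ ^ 2 / (q * q') * (2 * ((q : ℝ) * q')) := by
            apply mul_le_mul _ h1 (abs_nonneg _) (by positivity)
            exact div_le_div_of_nonneg_right hcc (by positivity)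
        _ = 2 * κ ^ 2 := by field_simp
  -- the second moment
  have hM : ∑ x ∈ Ioc R (2 * R), (∑ q ∈ PI Y Q, a x q) ^ 2 ≤ 2 * κ ^ 2 * R / Y := by
    have e1 : ∑ x ∈ Ioc R (2 * R), (∑ q ∈ PI Y Q, a x q) ^ 2 =
        ∑ q ∈ PI Y Q, ∑ q' ∈ PI Y Q, ∑ x ∈ Ioc R (2 * R), a x q * a x q' := by
      calc ∑ x ∈ Ioc R (2 * R), (∑ q ∈ PI Y Q, a x q) ^ 2
          = ∑ x ∈ Ioc R (2 * R), ∑ q ∈ PI Y Q, ∑ q' ∈ PI Y Q, a x q * a x q' := by
            refine Finset.sum_congr rfl (fun x _ => ?_)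
            rw [sq, Finset.sum_mul_sum]
        _ = ∑ q ∈ PI Y Q, ∑ x ∈ Ioc R (2 * R), ∑ q' ∈ PI Y Q, a x q * a x q' :=
            Finset.sum_comm
        _ = _ := Finset.sum_congr rfl (fun q _ => Finset.sum_comm)
    rw [e1]
    have e2 : ∑ q ∈ PI Y Q, ∑ q' ∈ PI Y Q, ∑ x ∈ Ioc R (2 * R), a x q * a x q' ≤
        ∑ q ∈ PI Y Q, ∑ q' ∈ PI Y Q,
          ((if q = q' then κ ^ 2 * R * ((q : ℝ) ^ 2)⁻¹ else 0) + 2 * κ ^ 2) :=
      Finset.sum_le_sum (fun q hq => Finset.sum_le_sum (fun q' hq' => hpair q hq q' hq'))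
    refine e2.trans ?_
    have e3 : ∑ q ∈ PI Y Q, ∑ q' ∈ PI Y Q,
          ((if q = q' then κ ^ 2 * R * ((q : ℝ) ^ 2)⁻¹ else 0) + 2 * κ ^ 2) =
        κ ^ 2 * R * ∑ q ∈ PI Y Q, ((q : ℝ) ^ 2)⁻¹ + (PI Y Q).card * ((PI Y Q).card * (2 * κ ^ 2)) := by
      rw [Finset.mul_sum]
      simp only [Finset.sum_add_distrib, Finset.sum_ite_eq, Finset.sum_const, nsmul_eq_mul]
      congr 1
      refine Finset.sum_congr rfl (fun q hq => ?_)
      rw [if_pos hq]
    rw [e3]
    have e4 : ∑ q ∈ PI Y Q, ((q : ℝ) ^ 2)⁻¹ ≤ (Y : ℝ)⁻¹ := by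
      calc ∑ q ∈ PI Y Q, ((q : ℝ) ^ 2)⁻¹ ≤ ∑ q ∈ Ioc Y Q, ((q : ℝ) ^ 2)⁻¹ :=
            Finset.sum_le_sum_of_subset_of_nonneg (Finset.filter_subset _ _)
              (fun _ _ _ => by positivity)
        _ ≤ (Y : ℝ)⁻¹ - (Q : ℝ)⁻¹ := sum_Ioc_inv_sq_le_sub (by omega) hYQ.le
        _ ≤ (Y : ℝ)⁻¹ := by
          have : (0 : ℝ) ≤ (Q : ℝ)⁻¹ := by positivity
          linarith
    have e5 : ((PI Y Q).card : ℝ) ≤ Q := by
      have : (PI Y Q).card ≤ Q := by
        refine (Finset.card_filter_le _ _).trans ?_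
        rw [Nat.card_Ioc]; omega
      exact_mod_cast this
    have e6 : (2 * Q ^ 2 * Y : ℝ) ≤ R := by
      have h1 : 2 * Q ^ 2 * Y ≤ Q ^ 4 := by
        have hQ2 : 2 ≤ Q := by omega
        calc 2 * Q ^ 2 * Y ≤ Q * Q ^ 2 * Q := by gcongr
          _ = Q ^ 4 := by ring
      exact_mod_cast h1.trans hQR
    have e7 : ((PI Y Q).card : ℝ) * ((PI Y Q).card * (2 * κ ^ 2)) ≤ κ ^ 2 * R / Y := by
      rw [le_div_iff₀ hYr]
      calc ((PI Y Q).card : ℝ) * ((PI Y Q).card * (2 * κ ^ 2)) * Y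
          ≤ Q * (Q * (2 * κ ^ 2)) * Y := by gcongr
        _ = κ ^ 2 * (2 * Q ^ 2 * Y) := by ring
        _ ≤ κ ^ 2 * R := by gcongr
    have e8 : κ ^ 2 * R * ∑ q ∈ PI Y Q, ((q : ℝ) ^ 2)⁻¹ ≤ κ ^ 2 * R / Y := by
      rw [div_eq_mul_inv]
      exact mul_le_mul_of_nonneg_left e4 (by positivity)
    calc _ ≤ κ ^ 2 * R / Y + κ ^ 2 * R / Y := add_le_add e8 e7
      _ = 2 * κ ^ 2 * R / Y := by ring
  set F := (Ioc R (2 * R)).filter (fun x : ℕ => 1 / 2 < |∑ q ∈ PI Y Q, c q * ch (x : ℤ) q / q|)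
    with hF
  have hN : (F.card : ℝ) * (1 / 4) ≤ ∑ x ∈ Ioc R (2 * R), (∑ q ∈ PI Y Q, a x q) ^ 2 := by
    calc (F.card : ℝ) * (1 / 4) = ∑ _x ∈ F, (1 / 4 : ℝ) := by
          rw [Finset.sum_const, nsmul_eq_mul]
      _ ≤ ∑ x ∈ F, (∑ q ∈ PI Y Q, a x q) ^ 2 := by
          refine Finset.sum_le_sum (fun x hx => ?_)
          have h1 : 1 / 2 < |∑ q ∈ PI Y Q, a x q| := (mem_filter.1 hx).2
          rw [← sq_abs]
          nlinarith
      _ ≤ _ := Finset.sum_le_sum_of_subset_of_nonneg (Finset.filter_subset _ _)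
          (fun _ _ _ => sq_nonneg _)
  have h9 : (8 * κ ^ 2 * R / Y : ℝ) = 4 * (2 * κ ^ 2 * R / Y) := by ring
  rw [h9]
  linarith

end Pool.Agent.W215.PQ
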